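import Pool.Agent.Q317.IA.Ord

/-!
# A computable copy of the algebra of the finite and cofinite sets
-/

set_option autoImplicit false

namespace Pool.Agent.Q317.IA

open Nat.Partrec (Code)
open Nat.Partrec.Code

/-- `s` is an element of the finite set with the number `n` -/
def mem (s n : ℕ) : Prop := n / 2 ^ s % 2 = 1

lemma mem_iff (s n : ℕ) : mem s n ↔ n.testBit s = true := by
  unfold mem
  rw [Nat.testBit_eq_decide_div_mod_eq]
  simp

theorem pow_primrec : Primrec fun s : ℕ => 2 ^ s := by
  refine (Primrec.nat_rec₁ 1 (f := fun _ y : ℕ => 2 * y)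
    (Primrec.nat_double.comp Primrec.snd)).of_eq fun n => ?_
  induction n with
  | zero => rfl
  | succ n ih =>
    simp only at ih ⊢
    rw [ih, pow_succ]
    ring

theorem mem_primrec : PrimrecRel mem :=
  Primrec.eq.comp (Primrec.nat_mod.comp (Primrec.nat_div.comp Primrec.snd
    (pow_primrec.comp Primrec.fst)) (Primrec.const 2)) (Primrec.const 1)

lemma lt_of_mem {s n : ℕ} (h : mem s n) : s < n := by
  unfold mem at h
  have h1 : 0 < n / 2 ^ s := by
    rcases Nat.eq_zero_or_pos (n / 2 ^ s) with h0 | h0
    · rw [h0] at h; simp at h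
    · exact h0
  have h2 : 2 ^ s ≤ n := by
    by_contra hcon
    rw [Nat.div_eq_of_lt (by omega)] at h1
    exact lt_irrefl _ h1
  exact lt_of_lt_of_le Nat.lt_two_pow_self h2

lemma exists_code (F : Finset ℕ) : ∃ n, ∀ s, mem s n ↔ s ∈ F := by
  classical
  induction F using Finset.induction_on with
  | empty => exact ⟨0, fun s => by simp [mem]⟩
  | insert a F ha ih =>
    obtain ⟨n, hn⟩ := ih
    refine ⟨n ^^^ 2 ^ a, fun s => ?_⟩
    rw [mem_iff, Nat.testBit_xor, Nat.testBit_two_pow, Finset.mem_insert, ← hn, mem_iff]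
    have h1 : n.testBit a = false := by
      have := (hn a).not.mpr ha
      rw [mem_iff] at this
      simpa using this
    by_cases h : a = s
    · subst h
      simp [h1]
    · have h' : ¬ s = a := fun e => h e.symm
      simp [h, h']

lemma eq_of_mem {m n : ℕ} (h : ∀ s, mem s m ↔ mem s n) : m = n := by
  refine Nat.eq_of_testBit_eq fun s => ?_
  have := h s
  rw [mem_iff, mem_iff] at this
  exact Bool.eq_iff_iff.mpr this

open Classical in
/-- the number of the elements of the set `n` which are at most `x` -/
noncomputable def cnt (n x : ℕ) : ℕ := ((Finset.range n).filter fun s => mem s n ∧ le' s x).card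

/-- the union of intervals with the set of endpoints `n` -/
def E (n : ℕ) : Set ℕ := {x | Odd (cnt n x)}

theorem E_primrec : PrimrecRel fun x n : ℕ => x ∈ E n := by
  classical
  have h1 : PrimrecRel fun (s : ℕ) (p : ℕ × ℕ) => mem s p.2 ∧ le' s p.1 :=
    PrimrecPred.and (mem_primrec.comp Primrec.fst (Primrec.snd.comp Primrec.snd))
      (le'_primrec.comp Primrec.fst (Primrec.fst.comp Primrec.snd))
  have h2 : Primrec fun p : ℕ × ℕ =>
      ((List.range p.2).filter fun s => decide (mem s p.2 ∧ le' s p.1)).length :=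
    Primrec.list_length.comp ((PrimrecRel.listFilter h1).comp (Primrec.list_range.comp Primrec.snd)
      Primrec.id)
  have h3 : PrimrecPred fun p : ℕ × ℕ =>
      ((List.range p.2).filter fun s => decide (mem s p.2 ∧ le' s p.1)).length % 2 = 1 :=
    Primrec.eq.comp (Primrec.nat_mod.comp h2 (Primrec.const 2)) (Primrec.const 1)
  refine PrimrecPred.of_eq h3 fun p => ?_
  show _ ↔ Odd (cnt p.2 p.1)
  rw [Nat.odd_iff]
  have h4 : cnt p.2 p.1 =
      ((List.range p.2).filter fun s => decide (mem s p.2 ∧ le' s p.1)).length := by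
    unfold cnt
    rw [← List.toFinset_card_of_nodup ((List.nodup_range).filter _)]
    congr 1
    ext s
    simp
  rw [h4]

/-- the counts depend only on the elements below -/
lemma cnt_congr {n x y : ℕ} (h : ∀ s, mem s n → (le' s x ↔ le' s y)) : cnt n x = cnt n y := by
  classical
  unfold cnt
  congr 1
  ext s
  simp only [Finset.mem_filter, Finset.mem_range]
  constructor
  · rintro ⟨h1, h2, h3⟩
    exact ⟨h1, h2, (h s h2).mp h3⟩
  · rintro ⟨h1, h2, h3⟩
    exact ⟨h1, h2, (h s h2).mpr h3⟩

lemma cnt_zero {n x : ℕ} (h : ∀ s, mem s n → ¬ le' s x) : cnt n x = 0 := by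
  classical
  unfold cnt
  rw [Finset.card_eq_zero, Finset.filter_eq_empty_iff]
  intro s _ h1
  exact h s h1.1 h1.2

/-- the largest element of a finite set below `x` -/
lemma exists_max (G : Finset ℕ) (x : ℕ) (h : ∃ s ∈ G, le' s x) :
    ∃ s ∈ G, le' s x ∧ ∀ u ∈ G, le' u x → le' u s := by
  classical
  obtain ⟨s0, hs0, hs0'⟩ := h
  obtain ⟨y, hy, hmax⟩ := Finset.exists_max_image (G.filter fun s => le' s x)
    (fun z => ((G.filter fun s => le' s x).filter fun w => prec w z).card)
    ⟨s0, Finset.mem_filter.mpr ⟨hs0, hs0'⟩⟩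
  have hy' := Finset.mem_filter.mp hy
  refine ⟨y, hy'.1, hy'.2, fun z hz hzx => ?_⟩
  by_contra hcon
  rw [not_le'] at hcon
  have hz1 : z ∈ G.filter fun s => le' s x := Finset.mem_filter.mpr ⟨hz, hzx⟩
  have h2 := hmax z hz1
  have h3 : ((G.filter fun s => le' s x).filter fun w => prec w y).card <
      ((G.filter fun s => le' s x).filter fun w => prec w z).card := by
    refine Finset.card_lt_card ⟨?_, ?_⟩
    · intro w hw
      rw [Finset.mem_filter] at hw ⊢
      exact ⟨hw.1, prec_trans hw.2 hcon⟩
    · intro hsub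
      have := hsub (Finset.mem_filter.mpr ⟨hy, hcon⟩)
      exact prec_irrefl y (Finset.mem_filter.mp this).2
  omega

/-- a relation between the sets `E m`, `E n`, `E k` which holds at all endpoints and at the least
element holds everywhere -/
lemma test {m n k b : ℕ} (hb : ∀ z, le' b z) (R : Prop → Prop → Prop → Prop) :
    (∀ x, R (x ∈ E m) (x ∈ E n) (x ∈ E k)) ↔
      ∀ x < m + n + k + b + 1, R (x ∈ E m) (x ∈ E n) (x ∈ E k) := by
  constructor
  · intro h x _
    exact h x
  · intro h x
    obtain ⟨s, hs, hsx, hmax⟩ := exists_max (Finset.range (m + n + k + b + 1)) x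
      ⟨b, Finset.mem_range.mpr (by omega), hb x⟩
    have h1 := h s (Finset.mem_range.mp hs)
    have h2 : ∀ l, l ≤ m + n + k → cnt l x = cnt l s := by
      intro l hl
      refine cnt_congr fun u hu => ⟨fun h3 => ?_, fun h3 => le'_trans h3 hsx⟩
      refine hmax u (Finset.mem_range.mpr ?_) h3
      have := lt_of_mem hu
      omega
    have h3 : ∀ l, l ≤ m + n + k → ((x ∈ E l) = (s ∈ E l)) := by
      intro l hl
      unfold E
      rw [Set.mem_setOf_eq, Set.mem_setOf_eq, h2 l hl]
    rw [h3 m (by omega), h3 n (by omega), h3 k (by omega)]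
    exact h1

open Classical in
/-- strict counts -/
noncomputable def cs (n s : ℕ) : ℕ := ((Finset.range n).filter fun t => mem t n ∧ prec t s).card

lemma cnt_pos {n s : ℕ} (h : mem s n) : cnt n s = cs n s + 1 := by
  classical
  unfold cnt cs
  have h1 : ((Finset.range n).filter fun t => mem t n ∧ le' t s) =
      insert s ((Finset.range n).filter fun t => mem t n ∧ prec t s) := by
    ext t
    simp only [Finset.mem_filter, Finset.mem_insert, Finset.mem_range]
    constructor
    · rintro ⟨h1, h2, h3⟩
      rcases h3 with rfl | h3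
      · exact Or.inl rfl
      · exact Or.inr ⟨h1, h2, h3⟩
    · rintro (rfl | ⟨h1, h2, h3⟩)
      · exact ⟨lt_of_mem h, h, Or.inl rfl⟩
      · exact ⟨h1, h2, Or.inr h3⟩
  have h2 : s ∉ ((Finset.range n).filter fun t => mem t n ∧ prec t s) :=
    fun h2 => prec_irrefl _ (Finset.mem_filter.mp h2).2.2
  rw [← Finset.card_insert_of_notMem h2]
  congr 1

lemma cnt_neg {n s : ℕ} (h : ¬ mem s n) : cnt n s = cs n s := by
  classical
  unfold cnt cs
  congr 1
  ext t
  simp only [Finset.mem_filter, Finset.mem_range]
  constructor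
  · rintro ⟨h1, h2, h3⟩
    rcases h3 with rfl | h3
    · exact absurd h2 h
    · exact ⟨h1, h2, h3⟩
  · rintro ⟨h1, h2, h3⟩
    exact ⟨h1, h2, Or.inr h3⟩

theorem E_inj : Function.Injective E := by
  classical
  intro m n h
  by_contra hne
  have hex : ∃ s, ¬ (mem s m ↔ mem s n) := by
    by_contra hcon
    push Not at hcon
    exact hne (eq_of_mem hcon)
  obtain ⟨s0, hs0⟩ := hex
  set F := (Finset.range (m + n)).filter fun s => ¬ (mem s m ↔ mem s n) with hF
  have hmemF : ∀ s, ¬ (mem s m ↔ mem s n) → s ∈ F := by
    intro s hs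
    refine Finset.mem_filter.mpr ⟨Finset.mem_range.mpr ?_, hs⟩
    by_cases h1 : mem s m
    · have := lt_of_mem h1; omega
    · have h2 : mem s n := by tauto
      have := lt_of_mem h2; omega
  obtain ⟨y, hy, hmin⟩ := Finset.exists_min_image F (fun z => (F.filter fun w => prec w z).card)
    ⟨s0, hmemF s0 hs0⟩
  have hy' := (Finset.mem_filter.mp hy).2
  have hbelow : ∀ z, prec z y → (mem z m ↔ mem z n) := by
    intro z hz
    by_contra hcon
    have hz1 := hmemF z hcon
    have h2 := hmin z hz1
    have h3 : (F.filter fun w => prec w z).card < (F.filter fun w => prec w y).card := by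
      refine Finset.card_lt_card ⟨?_, ?_⟩
      · intro w hw
        rw [Finset.mem_filter] at hw ⊢
        exact ⟨hw.1, prec_trans hw.2 hz⟩
      · intro hsub
        have := hsub (Finset.mem_filter.mpr ⟨hz1, hz⟩)
        exact prec_irrefl z (Finset.mem_filter.mp this).2
    omega
  have h1 : cs m y = cs n y := by
    unfold cs
    congr 1
    ext t
    simp only [Finset.mem_filter, Finset.mem_range]
    constructor
    · rintro ⟨_, h3, h4⟩
      have h5 := (hbelow t h4).mp h3
      exact ⟨lt_of_mem h5, h5, h4⟩
    · rintro ⟨_, h3, h4⟩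
      have h5 := (hbelow t h4).mpr h3
      exact ⟨lt_of_mem h5, h5, h4⟩
  have h2 : (y ∈ E m) ↔ (y ∈ E n) := by rw [h]
  unfold E at h2
  rw [Set.mem_setOf_eq, Set.mem_setOf_eq, Nat.odd_iff, Nat.odd_iff] at h2
  by_cases h3 : mem y m
  · have h4 : ¬ mem y n := fun h4 => hy' ⟨fun _ => h4, fun _ => h3⟩
    rw [cnt_pos h3, cnt_neg h4, h1] at h2
    omega
  · have h4 : mem y n := by
      by_contra h4
      exact hy' ⟨fun h5 => absurd h5 h3, fun h5 => absurd h5 h4⟩
    rw [cnt_neg h3, cnt_pos h4, h1] at h2
    omega

/-! ### all finite and cofinite sets -/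

lemma cnt_xor (m n x : ℕ) : (Odd (cnt (m ^^^ n) x) ↔ (Odd (cnt m x) ↔ ¬ Odd (cnt n x))) := by
  classical
  set N := m + n + (m ^^^ n) with hN
  have h1 : ∀ l ≤ N, cnt l x = ((Finset.range N).filter fun s => mem s l ∧ le' s x).card := by
    intro l hl
    unfold cnt
    congr 1
    ext s
    simp only [Finset.mem_filter, Finset.mem_range]
    constructor
    · rintro ⟨h1, h2⟩
      exact ⟨by omega, h2⟩
    · rintro ⟨h1, h2, h3⟩
      exact ⟨lt_of_mem h2, h2, h3⟩
  rw [h1 m (by omega), h1 n (by omega), h1 (m ^^^ n) (by omega)]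
  set A := (Finset.range N).filter fun s => mem s m ∧ le' s x with hA
  set B := (Finset.range N).filter fun s => mem s n ∧ le' s x with hB
  have h2 : ((Finset.range N).filter fun s => mem s (m ^^^ n) ∧ le' s x) = symmDiff A B := by
    ext s
    rw [Finset.mem_symmDiff]
    simp only [hA, hB, Finset.mem_filter]
    rw [mem_iff, mem_iff, mem_iff, Nat.testBit_xor]
    cases m.testBit s <;> cases n.testBit s <;> simp
  rw [h2]
  have h3 : (symmDiff A B).card + 2 * (A ∩ B).card = A.card + B.card := by
    have e1 : symmDiff A B = (A \ B) ∪ (B \ A) := rfl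
    rw [e1, Finset.card_union_of_disjoint]
    · have e2 := Finset.card_sdiff_add_card_inter A B
      have e3 := Finset.card_sdiff_add_card_inter B A
      rw [Finset.inter_comm B A] at e3
      omega
    · exact disjoint_sdiff_sdiff
  rw [Nat.odd_iff, Nat.odd_iff, Nat.odd_iff]
  omega

lemma E_xor (m n : ℕ) : E (m ^^^ n) = symmDiff (E m) (E n) := by
  ext x
  rw [Set.mem_symmDiff]
  unfold E
  simp only [Set.mem_setOf_eq]
  rw [cnt_xor]
  tauto

lemma E_zero : E 0 = ∅ := by
  ext x
  simp [E, cnt]

lemma E_single (s : ℕ) : E (2 ^ s) = {x | le' s x} := by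
  classical
  ext x
  have hm : ∀ t, mem t (2 ^ s) ↔ t = s := by
    intro t
    rw [mem_iff, Nat.testBit_two_pow]
    simp [eq_comm]
  show Odd (cnt (2 ^ s) x) ↔ le' s x
  by_cases h : le' s x
  · have h1 : cnt (2 ^ s) x = 1 := by
      unfold cnt
      rw [Finset.card_eq_one]
      refine ⟨s, ?_⟩
      ext t
      simp only [Finset.mem_filter, Finset.mem_range, Finset.mem_singleton]
      constructor
      · rintro ⟨_, h2, _⟩
        exact (hm t).mp h2
      · rintro rfl
        exact ⟨Nat.lt_two_pow_self, (hm t).mpr rfl, h⟩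
    rw [h1]
    simp [h]
  · have h1 : cnt (2 ^ s) x = 0 := by
      refine cnt_zero fun t ht => ?_
      rw [(hm t).mp ht]
      exact h
    rw [h1]
    simp [h]

lemma exists_single (x : ℕ) : ∃ n, E n = {x} := by
  rcases exists_succ x with h | ⟨y, hy, hmin⟩
  · refine ⟨2 ^ x, ?_⟩
    rw [E_single]
    ext z
    simp only [Set.mem_setOf_eq, Set.mem_singleton_iff]
    constructor
    · rintro (rfl | h1)
      · rfl
      · exact absurd h1 (h z)
    · rintro rfl
      exact Or.inl rfl
  · refine ⟨2 ^ x ^^^ 2 ^ y, ?_⟩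
    rw [E_xor, E_single, E_single]
    ext z
    rw [Set.mem_symmDiff]
    simp only [Set.mem_setOf_eq, Set.mem_singleton_iff]
    constructor
    · rintro (⟨h1, h2⟩ | ⟨h1, h2⟩)
      · rcases h1 with rfl | h1
        · rfl
        · exact absurd (hmin z h1) h2
      · exact absurd (Or.inr (prec_of_prec_of_le hy h1)) h2
    · rintro rfl
      refine Or.inl ⟨Or.inl rfl, ?_⟩
      rw [not_le']
      exact hy

lemma exists_univ : ∃ n, E n = Set.univ := by
  obtain ⟨b, hb⟩ := exists_least
  refine ⟨2 ^ b, ?_⟩
  rw [E_single]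
  ext z
  simp [hb z]

lemma exists_finite {X : Set ℕ} (h : X.Finite) : ∃ n, E n = X := by
  classical
  induction X, h using Set.Finite.induction_on with
  | empty => exact ⟨0, E_zero⟩
  | @insert a s ha _ ih =>
    obtain ⟨n, hn⟩ := ih
    obtain ⟨m, hm⟩ := exists_single a
    refine ⟨m ^^^ n, ?_⟩
    rw [E_xor, hm, hn]
    ext z
    rw [Set.mem_symmDiff, Set.mem_singleton_iff, Set.mem_insert_iff]
    constructor
    · rintro (⟨h1, _⟩ | ⟨h1, _⟩)
      · exact Or.inl h1
      · exact Or.inr h1
    · rintro (rfl | h1)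
      · exact Or.inl ⟨rfl, ha⟩
      · exact Or.inr ⟨h1, fun e => ha (e ▸ h1)⟩

lemma exists_cofinite {X : Set ℕ} (h : Xᶜ.Finite) : ∃ n, E n = X := by
  obtain ⟨n, hn⟩ := exists_finite h
  obtain ⟨m, hm⟩ := exists_univ
  refine ⟨m ^^^ n, ?_⟩
  rw [E_xor, hm, hn]
  ext z
  rw [Set.mem_symmDiff]
  simp

lemma E_fin_or (n : ℕ) : (E n).Finite ∨ (E n)ᶜ.Finite := by
  classical
  induction n using Nat.strong_induction_on with
  | _ n ih =>
    rcases Nat.eq_zero_or_pos n with h0 | h0
    · subst h0
      left
      rw [E_zero]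
      exact Set.finite_empty
    · -- remove one endpoint
      set a := Nat.log 2 n with ha
      have h1 : 2 ^ a ≤ n := Nat.pow_log_le_self 2 (by omega)
      have h2 : n < 2 ^ (a + 1) := Nat.lt_pow_succ_log_self (by norm_num) n
      have h3 : n ^^^ 2 ^ a < n := by
        refine lt_of_lt_of_le ?_ h1
        refine Nat.lt_pow_two_of_testBit _ fun i hi => ?_
        rw [Nat.testBit_xor, Nat.testBit_two_pow]
        rcases Nat.lt_or_ge a i with h4 | h4
        · have h5 : n.testBit i = false := by
            refine Nat.testBit_eq_false_of_lt (lt_of_lt_of_le h2 ?_)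
            exact Nat.pow_le_pow_right (by norm_num) h4
          rw [h5]
          simp
          omega
        · have h5 : i = a := by omega
          rw [h5]
          have h6 : n.testBit a = true := by
            rw [← mem_iff]
            unfold mem
            have h7 : n / 2 ^ a = 1 := by
              refine Nat.div_eq_of_lt_le (by omega) ?_
              rw [pow_succ] at h2
              omega
            rw [h7]
          rw [h6]
          simp
      have h4 := ih _ h3
      have h5 : E n = symmDiff (E (n ^^^ 2 ^ a)) (E (2 ^ a)) := by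
        rw [← E_xor, Nat.xor_assoc, Nat.xor_self, Nat.xor_zero]
      have h6 : (E (2 ^ a)).Finite ∨ (E (2 ^ a))ᶜ.Finite := by
        rw [E_single]
        by_cases h7 : Tr a
        · right
          refine (below_finite h7).subset ?_
          intro x hx
          exact not_le'.mp hx
        · left
          refine ((above_finite h7).union (Set.finite_singleton a)).subset ?_
          rintro x hx
          rcases hx with rfl | hx
          · exact Or.inr rfl
          · exact Or.inl hx
      rw [h5]
      rcases h4 with h4 | h4 <;> rcases h6 with h6 | h6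
      · left
        exact (h4.union h6).subset fun x hx => by
          rcases hx with hx | hx
          · exact Or.inl hx.1
          · exact Or.inr hx.1
      · right
        refine (h4.union h6).subset fun x hx => ?_
        by_cases g1 : x ∈ E (n ^^^ 2 ^ a)
        · exact Or.inl g1
        · right
          intro g2
          exact hx (Or.inr ⟨g2, g1⟩)
      · right
        refine (h4.union h6).subset fun x hx => ?_
        by_cases g1 : x ∈ E (2 ^ a)
        · exact Or.inr g1
        · left
          intro g2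
          exact hx (Or.inl ⟨g2, g1⟩)
      · left
        refine (h4.union h6).subset fun x hx => ?_
        rcases hx with hx | hx
        · exact Or.inr hx.2
        · exact Or.inl hx.2

end Pool.Agent.Q317.IA
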