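import Pool.Agent.Q317.IA.Pres

/-!
# The contradiction
-/

set_option autoImplicit false

namespace Pool.Agent.Q317.IA

/-- the sets of the interval algebra of `ℕ` -/
def IntSets : Set (Set ℕ) := {X : Set ℕ | ∃ S : Finset ℕ, ∃ b : Bool,
  X = {x : ℕ | Xor' (b = true) (Odd (S.filter (fun s => s ≤ x)).card)}}

lemma int_fin_or {X : Set ℕ} (h : X ∈ IntSets) : X.Finite ∨ Xᶜ.Finite := by
  obtain ⟨S, b, rfl⟩ := h
  set N := S.sup id with hN
  have hx : ∀ x, N ≤ x → (S.filter (fun s => s ≤ x)).card = S.card := by
    intro x hx
    congr 1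
    refine Finset.filter_true_of_mem fun s hs => ?_
    exact le_trans (Finset.le_sup (f := id) hs) hx
  by_cases h : Xor' (b = true) (Odd S.card)
  · right
    refine (Set.finite_lt_nat N).subset fun x hx' => ?_
    show x < N
    by_contra hcon
    apply hx'
    show Xor' _ _
    rw [hx x (by omega)]
    exact h
  · left
    refine (Set.finite_lt_nat N).subset fun x hx' => ?_
    show x < N
    by_contra hcon
    have h1 : Xor' (b = true) (Odd (S.filter (fun s => s ≤ x)).card) := hx'
    rw [hx x (by omega)] at h1
    exact h h1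

lemma int_symm {X : Set ℕ} (h : X ∈ IntSets) (a : ℕ) : symmDiff X {x | a ≤ x} ∈ IntSets := by
  obtain ⟨S, b, rfl⟩ := h
  refine ⟨symmDiff S {a}, b, ?_⟩
  ext x
  rw [Set.mem_symmDiff]
  simp only [Set.mem_setOf_eq]
  have h1 : (symmDiff S {a}).filter (fun s => s ≤ x) =
      symmDiff (S.filter (fun s => s ≤ x)) (({a} : Finset ℕ).filter (fun s => s ≤ x)) := by
    ext s
    simp only [Finset.mem_filter, Finset.mem_symmDiff]
    tauto
  set A := S.filter (fun s => s ≤ x) with hA
  set B := ({a} : Finset ℕ).filter (fun s => s ≤ x) with hB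
  have h3 : (symmDiff A B).card + 2 * (A ∩ B).card = A.card + B.card := by
    have e1 : symmDiff A B = (A \ B) ∪ (B \ A) := rfl
    rw [e1, Finset.card_union_of_disjoint]
    · have e2 := Finset.card_sdiff_add_card_inter A B
      have e3 := Finset.card_sdiff_add_card_inter B A
      rw [Finset.inter_comm B A] at e3
      omega
    · exact disjoint_sdiff_sdiff
  have hB' : B.card = if a ≤ x then 1 else 0 := by
    rw [hB]
    by_cases h : a ≤ x
    · rw [if_pos h, Finset.filter_true_of_mem (by simpa using h)]; simp
    · rw [if_neg h, Finset.filter_false_of_mem (by simpa using h)]; simp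
  rw [h1]
  have h4 : Odd (symmDiff A B).card ↔ (Odd A.card ↔ ¬ a ≤ x) := by
    rw [Nat.odd_iff, Nat.odd_iff]
    by_cases h : a ≤ x
    · rw [if_pos h] at hB'
      constructor
      · intro h5
        constructor
        · intro h6; omega
        · intro h6; exact absurd h h6
      · intro h5
        by_contra h6
        have h7 : A.card % 2 = 1 := by omega
        exact (h5.mp h7) h
    · rw [if_neg h] at hB'
      constructor
      · intro h5
        exact ⟨fun _ => h, fun _ => by omega⟩
      · intro h5
        have := h5.mpr h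
        omega
  rw [h4]
  by_cases g1 : a ≤ x <;> by_cases g2 : Odd A.card <;> cases b <;> simp [g1, g2, Xor']

lemma int_finite {X : Set ℕ} (h : X.Finite) : X ∈ IntSets := by
  induction X, h using Set.Finite.induction_on with
  | empty => exact ⟨∅, false, by ext x; simp [Xor']⟩
  | @insert a s ha _ ih =>
    have h1 := int_symm (int_symm ih a) (a + 1)
    have h2 : symmDiff (symmDiff s {x | a ≤ x}) {x | a + 1 ≤ x} = insert a s := by
      ext x
      rw [Set.mem_symmDiff, Set.mem_symmDiff, Set.mem_insert_iff]
      simp only [Set.mem_setOf_eq]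
      by_cases hx : x = a
      · subst hx
        simp [ha]
      · by_cases h1 : a ≤ x
        · have h2 : a + 1 ≤ x := by omega
          simp [h1, h2, hx]
        · have h2 : ¬ a + 1 ≤ x := by omega
          tauto
    rw [← h2]
    exact h1

lemma int_compl {X : Set ℕ} (h : X ∈ IntSets) : Xᶜ ∈ IntSets := by
  obtain ⟨S, b, rfl⟩ := h
  refine ⟨S, !b, ?_⟩
  ext x
  simp only [Set.mem_compl_iff, Set.mem_setOf_eq]
  unfold Xor'
  cases b <;> simp

lemma int_iff {X : Set ℕ} : X ∈ IntSets ↔ X.Finite ∨ Xᶜ.Finite := by
  refine ⟨int_fin_or, ?_⟩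
  rintro (h | h)
  · exact int_finite h
  · have := int_compl (int_finite h)
    rwa [compl_compl] at this

/-- An isomorphism onto the interval algebra preserves finiteness. -/
lemma finite_iff {ψ : FC → Set ℕ} (hinj : Function.Injective ψ)
    (hsup : ∀ a b, ψ (a ⊔ b) = ψ a ∪ ψ b) (hcompl : ∀ a, ψ aᶜ = (ψ a)ᶜ)
    (hr : Set.range ψ = IntSets) (X : FC) : (ψ X).Finite ↔ (X : Set ℕ).Finite := by
  have hmono : ∀ a b : FC, ψ a ⊆ ψ b ↔ a ≤ b := by
    intro a b
    rw [← Set.union_eq_right, ← hsup, hinj.eq_iff, sup_eq_right]
  have key : ∀ X : FC, (X : Set ℕ).Finite → (ψ X).Finite := by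
    intro X hX
    by_contra hcon
    have h1 : {Y : FC | Y ≤ X}.Finite := by
      have h2 : ((fun Y : FC => (Y : Set ℕ)) '' {Y : FC | Y ≤ X}).Finite := by
        refine hX.finite_subsets.subset ?_
        rintro _ ⟨Y, hY, rfl⟩
        exact hY
      exact Set.Finite.of_finite_image h2 Subtype.val_injective.injOn
    have h2 : (ψ '' {Y : FC | Y ≤ X}).Finite := h1.image ψ
    have hinf : (ψ X).Infinite := hcon
    have h3 : ((fun x : ℕ => ({x} : Set ℕ)) '' (ψ X)).Infinite :=
      hinf.image fun x _ y _ h => Set.singleton_injective h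
    refine h3 (h2.subset ?_)
    rintro _ ⟨x, hx, rfl⟩
    have h4 : ({x} : Set ℕ) ∈ Set.range ψ := by
      rw [hr]
      exact int_finite (Set.finite_singleton x)
    obtain ⟨Y, hY⟩ := h4
    refine ⟨Y, ?_, hY⟩
    show Y ≤ X
    rw [← hmono, hY]
    intro z hz
    rw [Set.mem_singleton_iff] at hz
    rw [hz]
    exact hx
  refine ⟨fun h => ?_, key X⟩
  rcases X.2 with h1 | h1
  · exact h1
  · exfalso
    have h2 : (ψ Xᶜ).Finite := key Xᶜ h1
    rw [hcompl] at h2
    exact Set.infinite_of_finite_compl h2 h

theorem main_contra (l' : ℕ ≃ ℕ) (ψ : FC → Set ℕ) (hinj : Function.Injective ψ)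
    (hsup : ∀ a b, ψ (a ⊔ b) = ψ a ∪ ψ b) (hcompl : ∀ a, ψ aᶜ = (ψ a)ᶜ)
    (hr : Set.range ψ = IntSets) (c : ℕ → List ℕ × Bool) (hc : Computable c)
    (hψ : ∀ n : ℕ, ψ (eFC n) = {x : ℕ | Xor' ((c n).2 = true)
      (Odd ((c n).1.filter (fun s => decide (l' s ≤ x))).length)}) : False := by
  classical
  -- finiteness is computable
  have h1 : ∀ n, (E n).Finite ↔ ¬ Xor' ((c n).2 = true) (Odd (c n).1.length) := by
    intro n
    rw [← eFC_val, ← finite_iff hinj hsup hcompl hr, hψ]
    set N := ((c n).1.map l').sum with hN
    have hx : ∀ x, N ≤ x → ((c n).1.filter (fun s => decide (l' s ≤ x))).length =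
        (c n).1.length := by
      intro x hx
      congr 1
      rw [List.filter_eq_self]
      intro s hs
      rw [decide_eq_true_iff]
      exact le_trans (List.single_le_sum (fun _ _ => Nat.zero_le _) _
        (List.mem_map_of_mem hs)) hx
    constructor
    · intro hfin hxor
      refine Set.infinite_of_finite_compl ?_ hfin
      refine (Set.finite_lt_nat N).subset fun x hx' => ?_
      show x < N
      by_contra hcon
      apply hx'
      show Xor' _ _
      rw [hx x (by omega)]
      exact hxor
    · intro hxor
      refine (Set.finite_lt_nat N).subset fun x hx' => ?_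
      show x < N
      by_contra hcon
      have h1 : Xor' ((c n).2 = true)
        (Odd ((c n).1.filter (fun s => decide (l' s ≤ x))).length) := hx'
      rw [hx x (by omega)] at h1
      exact hxor h1
  have h2 : ComputablePred fun n => (E n).Finite := by
    have h3 : Computable fun n => (xor (c n).2 (decide ((c n).1.length % 2 = 1))) := by
      have h4 : Computable fun n => decide ((c n).1.length % 2 = 1) := by
        have h5 : Primrec fun l : List ℕ => decide (l.length % 2 = 1) :=
          (Primrec.eq.comp (Primrec.nat_mod.comp Primrec.list_length (Primrec.const 2))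
            (Primrec.const 1)).decide
        exact h5.to_comp.comp (Computable.fst.comp hc)
      have h6 : Primrec₂ (fun a b : Bool => xor a b) :=
        Primrec.dom_finite (fun p : Bool × Bool => xor p.1 p.2)
      exact h6.to_comp.comp (Computable.snd.comp hc) h4
    refine ComputablePred.of_eq (ComputablePred.not (Computable.computablePred
      (p := fun n => xor (c n).2 (decide ((c n).1.length % 2 = 1)) = true) (h3.of_eq fun n => ?_)))
      fun n => ?_
    · cases (xor (c n).2 (decide ((c n).1.length % 2 = 1))) <;> rfl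
    · rw [h1, not_iff_not, Nat.odd_iff]
      cases (c n).2 <;> by_cases h : (c n).1.length % 2 = 1 <;> simp [h, Xor']
  -- so the cut is computable
  refine Tr_not ?_
  have h3 : ComputablePred fun t => (E (2 ^ t)).Finite := by
    refine Computable.computablePred ?_
    exact h2.decide.comp pow_primrec.to_comp
  refine ComputablePred.of_eq h3.not fun t => ?_
  rw [E_single]
  constructor
  · intro h4
    by_contra h5
    apply h4
    refine ((above_finite h5).union (Set.finite_singleton t)).subset ?_
    rintro x hx
    rcases hx with rfl | hx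
    · exact Or.inr rfl
    · exact Or.inl hx
  · intro h4 h5
    refine Set.infinite_of_finite_compl ?_ h5
    refine (below_finite h4).subset ?_
    intro x hx
    exact not_le'.mp hx

end Pool.Agent.Q317.IA
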