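import Mathlib

/-!
# A computable linear order of type `ω + ω*` whose cut is not computable
-/

set_option autoImplicit false

namespace Pool.Agent.Q317.IA

open Nat.Partrec (Code)
open Nat.Partrec.Code

/-- the program with number `e` halts on the input `0` within `k` steps -/
def H (e k : ℕ) : Bool := (evaln k (Denumerable.ofNat Code e) 0).isSome

theorem H_primrec : Primrec₂ H := by
  refine Primrec.option_isSome.comp (primrec_evaln.comp (Primrec.pair (Primrec.pair Primrec.snd
    ((Primrec.ofNat Code).comp Primrec.fst)) (Primrec.const 0)))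

lemma H_mono {e k l : ℕ} (h : k ≤ l) (hk : H e k = true) : H e l = true := by
  unfold H at *
  rw [Option.isSome_iff_exists] at *
  obtain ⟨x, hx⟩ := hk
  exact ⟨x, evaln_mono h hx⟩

lemma H_zero (e : ℕ) : H e 0 = false := by
  unfold H
  simp [evaln]

/-- the halting problem -/
def K (e : ℕ) : Prop := ∃ k, H e k = true

lemma K_iff (e : ℕ) : K e ↔ (eval (Denumerable.ofNat Code e) 0).Dom := by
  unfold K H
  rw [Part.dom_iff_mem]
  constructor
  · rintro ⟨k, hk⟩
    obtain ⟨x, hx⟩ := Option.isSome_iff_exists.mp hk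
    exact ⟨x, evaln_complete.mpr ⟨k, hx⟩⟩
  · rintro ⟨x, hx⟩
    obtain ⟨k, hk⟩ := evaln_complete.mp hx
    exact ⟨k, Option.isSome_iff_exists.mpr ⟨x, hk⟩⟩

theorem K_not : ¬ ComputablePred K := by
  intro h
  refine ComputablePred.halting_problem 0 ?_
  obtain ⟨g, hg, hK⟩ := ComputablePred.computable_iff.mp h
  refine ComputablePred.computable_iff.mpr ⟨fun c => g (Encodable.encode c),
    hg.comp Computable.encode, ?_⟩
  funext c
  have h1 := congrFun hK (Encodable.encode c)
  rw [← h1]
  have h2 := K_iff (Encodable.encode c)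
  rw [Denumerable.ofNat_encode] at h2
  exact propext h2.symm

/-- a one-to-one function which enumerates all `2 e` with `K e`, and some odd numbers -/
def f (s : ℕ) : ℕ :=
  if (H s.unpair.1 (s.unpair.2 + 1) && !H s.unpair.1 s.unpair.2) = true then 2 * s.unpair.1
  else 2 * s + 1

theorem f_primrec : Primrec f := by
  unfold f
  have h1 : Primrec fun s : ℕ => s.unpair.1 := Primrec.fst.comp Primrec.unpair
  have h2 : Primrec fun s : ℕ => s.unpair.2 := Primrec.snd.comp Primrec.unpair
  refine Primrec.ite ?_ (Primrec.nat_double.comp h1) Primrec.nat_double_succ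
  refine Primrec.eq.comp (Primrec.and.comp (H_primrec.comp h1 (Primrec.succ.comp h2))
    (Primrec.not.comp (H_primrec.comp h1 h2))) (Primrec.const true)

lemma f_inj : Function.Injective f := by
  intro s t h
  unfold f at h
  by_cases hs : (H s.unpair.1 (s.unpair.2 + 1) && !H s.unpair.1 s.unpair.2) = true
  · by_cases ht : (H t.unpair.1 (t.unpair.2 + 1) && !H t.unpair.1 t.unpair.2) = true
    · rw [if_pos hs, if_pos ht] at h
      have h1 : s.unpair.1 = t.unpair.1 := by omega
      rw [Bool.and_eq_true, Bool.not_eq_true'] at hs ht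
      rw [← h1] at ht
      have h2 : s.unpair.2 = t.unpair.2 := by
        rcases lt_trichotomy s.unpair.2 t.unpair.2 with h3 | h3 | h3
        · have := H_mono (show s.unpair.2 + 1 ≤ t.unpair.2 by omega) hs.1
          rw [ht.2] at this
          cases this
        · exact h3
        · have := H_mono (show t.unpair.2 + 1 ≤ s.unpair.2 by omega) ht.1
          rw [hs.2] at this
          cases this
      rw [← Nat.pair_unpair s, ← Nat.pair_unpair t, h1, h2]
    · rw [if_pos hs, if_neg ht] at h
      omega
  · by_cases ht : (H t.unpair.1 (t.unpair.2 + 1) && !H t.unpair.1 t.unpair.2) = true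
    · rw [if_neg hs, if_pos ht] at h
      omega
    · rw [if_neg hs, if_neg ht] at h
      omega

lemma K_iff_f (e : ℕ) : K e ↔ ∃ s, f s = 2 * e := by
  classical
  constructor
  · intro h
    have h1 := Nat.find_spec h
    have h2 : 0 < Nat.find h := by
      rcases Nat.eq_zero_or_pos (Nat.find h) with h0 | h0
      · rw [h0, H_zero] at h1
        cases h1
      · exact h0
    have h3 := Nat.find_min h (m := Nat.find h - 1) (by omega)
    refine ⟨Nat.pair e (Nat.find h - 1), ?_⟩
    unfold f
    rw [Nat.unpair_pair]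
    simp only
    rw [if_pos]
    rw [Bool.and_eq_true, Bool.not_eq_true']
    refine ⟨?_, by simpa using h3⟩
    rw [show Nat.find h - 1 + 1 = Nat.find h by omega]
    exact h1
  · rintro ⟨s, hs⟩
    unfold f at hs
    by_cases h : (H s.unpair.1 (s.unpair.2 + 1) && !H s.unpair.1 s.unpair.2) = true
    · rw [if_pos h] at hs
      have h1 : s.unpair.1 = e := by omega
      rw [Bool.and_eq_true] at h
      rw [h1] at h
      exact ⟨_, h.1⟩
    · rw [if_neg h] at hs
      omega

/-- `t` looks true at the stage `s` -/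
def tr (t s : ℕ) : Prop := ∀ u < s + 1, t < u → f t < f u

/-- `t` is true -/
def Tr (t : ℕ) : Prop := ∀ u, t < u → f t < f u

/-- the strict order -/
def prec (a b : ℕ) : Prop := (a < b ∧ tr a b) ∨ (b < a ∧ ¬ tr b a)

/-- the order -/
def le' (a b : ℕ) : Prop := a = b ∨ prec a b

theorem tr_primrec : PrimrecRel tr := by
  have h0 : PrimrecRel fun u t : ℕ => t < u → f t < f u := by
    have h1 : PrimrecRel fun u t : ℕ => ¬ t < u ∨ f t < f u := by
      refine PrimrecPred.or (PrimrecPred.not (Primrec.nat_lt.comp Primrec.snd Primrec.fst))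
        (Primrec.nat_lt.comp (f_primrec.comp Primrec.snd) (f_primrec.comp Primrec.fst))
    refine h1.of_eq fun u t => ?_
    tauto
  have h2 := PrimrecRel.forall_lt h0
  exact h2.comp (Primrec.succ.comp Primrec.snd) Primrec.fst

theorem prec_primrec : PrimrecRel prec := by
  refine PrimrecPred.or (PrimrecPred.and (Primrec.nat_lt.comp Primrec.fst Primrec.snd)
    (tr_primrec.comp Primrec.fst Primrec.snd)) (PrimrecPred.and
    (Primrec.nat_lt.comp Primrec.snd Primrec.fst) (PrimrecPred.not
      (tr_primrec.comp Primrec.snd Primrec.fst)))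

theorem le'_primrec : PrimrecRel le' :=
  PrimrecPred.or (Primrec.eq.comp Primrec.fst Primrec.snd)
    (prec_primrec.comp Primrec.fst Primrec.snd)

lemma prec_irrefl (a : ℕ) : ¬ prec a a := by
  rintro (⟨h, -⟩ | ⟨h, -⟩) <;> exact lt_irrefl _ h

lemma prec_asymm {a b : ℕ} (h : prec a b) : ¬ prec b a := by
  rintro h'
  rcases h with ⟨h1, h2⟩ | ⟨h1, h2⟩ <;> rcases h' with ⟨h3, h4⟩ | ⟨h3, h4⟩
  · omega
  · exact h4 h2
  · exact h2 h4
  · omega

lemma prec_total {a b : ℕ} (h : a ≠ b) : prec a b ∨ prec b a := by
  by_cases h1 : a < b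
  · by_cases h2 : tr a b
    · exact Or.inl (Or.inl ⟨h1, h2⟩)
    · exact Or.inr (Or.inr ⟨h1, h2⟩)
  · have h3 : b < a := by omega
    by_cases h2 : tr b a
    · exact Or.inr (Or.inl ⟨h3, h2⟩)
    · exact Or.inl (Or.inr ⟨h3, h2⟩)

lemma lemA {x y m : ℕ} (hx : x < m) (hy : y < m) (h1 : prec x y) (h2 : tr y m) : tr x m := by
  rcases h1 with ⟨h3, h4⟩ | ⟨h3, h4⟩
  · intro u hu hxu
    by_cases h5 : u ≤ y
    · exact h4 u (by omega) hxu
    · exact lt_trans (h4 y (by omega) h3) (h2 u hu (by omega))
  · exfalso
    apply h4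
    intro u hu hyu
    exact h2 u (by omega) hyu

lemma no_cycle {a b c : ℕ} (ha : a < c) (hb : b < c) (h1 : prec a b) (h2 : prec b c)
    (h3 : prec c a) : False := by
  have h4 : tr b c := by
    rcases h2 with h | h
    · exact h.2
    · omega
  have h5 : ¬ tr a c := by
    rcases h3 with h | h
    · omega
    · exact h.2
  exact h5 (lemA ha hb h1 h4)

lemma prec_trans {a b c : ℕ} (h1 : prec a b) (h2 : prec b c) : prec a c := by
  by_cases hac : a = c
  · subst hac
    exact absurd h2 (prec_asymm h1)
  rcases prec_total hac with h | h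
  · exact h
  · exfalso
    have hab : a ≠ b := fun e => prec_irrefl a (by rw [e] at h1 ⊢; exact h1)
    have hbc : b ≠ c := fun e => prec_irrefl b (by rw [← e] at h2; exact h2)
    rcases Nat.lt_or_ge a c with h3 | h3
    · rcases Nat.lt_or_ge b c with h4 | h4
      · exact no_cycle h3 h4 h1 h2 h
      · exact no_cycle (by omega) (by omega) h h1 h2
    · rcases Nat.lt_or_ge b a with h4 | h4
      · exact no_cycle (by omega) (by omega) h2 h h1
      · exact no_cycle (by omega) (by omega) h h1 h2

lemma prec_of_le_of_prec {a b c : ℕ} (h1 : le' a b) (h2 : prec b c) : prec a c := by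
  rcases h1 with rfl | h
  · exact h2
  · exact prec_trans h h2

lemma prec_of_prec_of_le {a b c : ℕ} (h1 : prec a b) (h2 : le' b c) : prec a c := by
  rcases h2 with rfl | h
  · exact h1
  · exact prec_trans h1 h

lemma le'_trans {a b c : ℕ} (h1 : le' a b) (h2 : le' b c) : le' a c := by
  rcases h1 with rfl | h
  · exact h2
  · exact Or.inr (prec_of_prec_of_le h h2)

lemma not_le' {a b : ℕ} : ¬ le' a b ↔ prec b a := by
  constructor
  · intro h
    unfold le' at h
    push Not at h
    rcases prec_total h.1 with h1 | h1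
    · exact absurd h1 h.2
    · exact h1
  · rintro h (rfl | h1)
    · exact prec_irrefl _ h
    · exact prec_asymm h h1

/-! ### the order type -/

lemma below_finite {t : ℕ} (h : Tr t) : {x | prec x t}.Finite := by
  refine (Set.finite_lt_nat t).subset ?_
  intro x hx
  rcases hx with ⟨h1, -⟩ | ⟨h1, h2⟩
  · exact h1
  · exact absurd (fun u _ hu => h u hu) h2

lemma above_finite {t : ℕ} (h : ¬ Tr t) : {x | prec t x}.Finite := by
  unfold Tr at h
  push Not at h
  obtain ⟨u, hu1, hu2⟩ := h
  refine (Set.finite_lt_nat (u + 1)).subset ?_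
  intro x hx
  show x < u + 1
  by_contra hcon
  rcases hx with ⟨h1, h2⟩ | ⟨h1, h2⟩
  · have := h2 u (by omega) hu1
    omega
  · omega

/-- there are true stages with large values -/
lemma exists_true (N e : ℕ) : ∃ t, N < t ∧ Tr t ∧ e < f t := by
  classical
  have hfin : {s | f s ≤ e}.Finite := by
    refine Set.Finite.of_finite_image ((Set.finite_le_nat e).subset ?_) (f_inj.injOn)
    rintro _ ⟨s, hs, rfl⟩
    exact hs
  obtain ⟨M, hM⟩ := hfin.bddAbove
  set N' := max N M with hN'
  have hex : ∃ v, ∃ t, N' < t ∧ f t = v := ⟨_, N' + 1, by omega, rfl⟩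
  obtain ⟨t, ht1, ht2⟩ := Nat.find_spec hex
  have hmin : ∀ u, N' < u → f t ≤ f u := by
    intro u hu
    rw [ht2]
    exact Nat.find_min' hex ⟨u, hu, rfl⟩
  refine ⟨t, by omega, ?_, ?_⟩
  · intro u hu
    refine lt_of_le_of_ne (hmin u (by omega)) fun h => ?_
    have := f_inj h
    omega
  · by_contra hcon
    have := hM (show f t ≤ e by omega)
    omega

/-- every element is the last one or has an immediate successor -/
lemma exists_succ (x : ℕ) : (∀ y, ¬ prec x y) ∨
    ∃ y, prec x y ∧ ∀ z, prec x z → le' y z := by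
  classical
  by_cases h : ∀ y, ¬ prec x y
  · exact Or.inl h
  right
  push Not at h
  obtain ⟨y0, hy0⟩ := h
  -- choose `y0` such that there are finitely many elements in between
  obtain ⟨y1, h1, hfin⟩ : ∃ y1, prec x y1 ∧ {z | prec x z ∧ le' z y1}.Finite := by
    by_cases hx : Tr x
    · obtain ⟨t, ht1, ht2, -⟩ := exists_true x 0
      refine ⟨t, Or.inl ⟨ht1, fun u _ hu => hx u hu⟩, ?_⟩
      refine ((below_finite ht2).union (Set.finite_singleton t)).subset ?_
      rintro z ⟨-, h2⟩
      rcases h2 with rfl | h2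
      · exact Or.inr rfl
      · exact Or.inl h2
    · exact ⟨y0, hy0, (above_finite hx).subset fun z hz => hz.1⟩
  have hne : hfin.toFinset.Nonempty := ⟨y1, hfin.mem_toFinset.mpr ⟨h1, Or.inl rfl⟩⟩
  obtain ⟨y, hy, hmin⟩ := Finset.exists_min_image hfin.toFinset
    (fun z => (hfin.toFinset.filter fun w => prec w z).card) hne
  rw [Set.Finite.mem_toFinset] at hy
  refine ⟨y, hy.1, fun z hz => ?_⟩
  by_contra hcon
  rw [not_le'] at hcon
  have hz1 : z ∈ hfin.toFinset := hfin.mem_toFinset.mpr ⟨hz, Or.inr (prec_of_prec_of_le hcon hy.2)⟩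
  have h2 := hmin z hz1
  have h3 : (hfin.toFinset.filter fun w => prec w z).card <
      (hfin.toFinset.filter fun w => prec w y).card := by
    refine Finset.card_lt_card ⟨?_, ?_⟩
    · intro w hw
      rw [Finset.mem_filter] at hw ⊢
      exact ⟨hw.1, prec_trans hw.2 hcon⟩
    · intro hsub
      have := hsub (Finset.mem_filter.mpr ⟨hz1, hcon⟩)
      exact prec_irrefl z (Finset.mem_filter.mp this).2
  omega

/-- there is a least element -/
lemma exists_least : ∃ b, ∀ z, le' b z := by
  classical
  obtain ⟨t, -, ht, -⟩ := exists_true 0 0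
  have hfin : {z | le' z t}.Finite := by
    refine ((below_finite ht).union (Set.finite_singleton t)).subset ?_
    rintro z h2
    rcases h2 with rfl | h2
    · exact Or.inr rfl
    · exact Or.inl h2
  have hne : hfin.toFinset.Nonempty := ⟨t, hfin.mem_toFinset.mpr (Or.inl rfl)⟩
  obtain ⟨y, hy, hmin⟩ := Finset.exists_min_image hfin.toFinset
    (fun z => (hfin.toFinset.filter fun w => prec w z).card) hne
  rw [Set.Finite.mem_toFinset] at hy
  refine ⟨y, fun z => ?_⟩
  by_contra hcon
  rw [not_le'] at hcon
  have hz1 : z ∈ hfin.toFinset := hfin.mem_toFinset.mpr (Or.inr (prec_of_prec_of_le hcon hy))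
  have h2 := hmin z hz1
  have h3 : (hfin.toFinset.filter fun w => prec w z).card <
      (hfin.toFinset.filter fun w => prec w y).card := by
    refine Finset.card_lt_card ⟨?_, ?_⟩
    · intro w hw
      rw [Finset.mem_filter] at hw ⊢
      exact ⟨hw.1, prec_trans hw.2 hcon⟩
    · intro hsub
      have := hsub (Finset.mem_filter.mpr ⟨hz1, hcon⟩)
      exact prec_irrefl z (Finset.mem_filter.mp this).2
  omega

/-- **The cut is not computable.** -/
theorem Tr_not : ¬ ComputablePred Tr := by
  classical
  intro h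
  refine K_not ?_
  have h1 : ComputablePred fun p : ℕ × ℕ => Tr p.2 ∧ 2 * p.1 < f p.2 := by
    have h2 : ComputablePred fun p : ℕ × ℕ => Tr p.2 := by
      refine Computable.computablePred ?_
      exact h.decide.comp Computable.snd
    have h3 : ComputablePred fun p : ℕ × ℕ => 2 * p.1 < f p.2 := by
      refine PrimrecPred.computablePred ?_
      exact Primrec.nat_lt.comp (Primrec.nat_double.comp Primrec.fst)
        (f_primrec.comp Primrec.snd)
    refine Computable.computablePred ?_
    refine (Primrec.and.to_comp.comp h2.decide h3.decide).of_eq fun p => ?_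
    simp
  have hex : ∀ e : ℕ, ∃ t, Tr t ∧ 2 * e < f t := by
    intro e
    obtain ⟨t, -, ht1, ht2⟩ := exists_true 0 (2 * e)
    exact ⟨t, ht1, ht2⟩
  have h2 := Computable.find (P := fun e t => Tr t ∧ 2 * e < f t) h1 hex
  have h3 : PrimrecRel fun n e : ℕ => ∃ u < n, f u = 2 * e := by
    refine PrimrecRel.exists_lt (R := fun u e => f u = 2 * e) ?_
    exact Primrec.eq.comp (f_primrec.comp Primrec.fst) (Primrec.nat_double.comp Primrec.snd)
  have h4 : Computable fun e : ℕ => decide (∃ u < Nat.find (hex e), f u = 2 * e) := by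
    exact (h3.decide.to_comp).comp h2 Computable.id
  refine ComputablePred.of_eq (Computable.computablePred h4) fun e => ?_
  rw [K_iff_f]
  constructor
  · rintro ⟨u, -, hu⟩
    exact ⟨u, hu⟩
  · rintro ⟨s, hs⟩
    refine ⟨s, ?_, hs⟩
    obtain ⟨h5, h6⟩ := Nat.find_spec (hex e)
    by_contra hcon
    rcases Nat.lt_or_ge (Nat.find (hex e)) s with h7 | h7
    · have := h5 s h7
      omega
    · have : s = Nat.find (hex e) := by omega
      rw [← this] at h6
      omega

end Pool.Agent.Q317.IA
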