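import Pool.Agent.Q317.IA.Alg

/-!
# The computable presentation, and the contradiction
-/

set_option autoImplicit false

namespace Pool.Agent.Q317.IA

/-- the algebra of the finite and the cofinite sets of natural numbers -/
def FC : BooleanSubalgebra (Set ℕ) where
  carrier := {X | X.Finite ∨ Xᶜ.Finite}
  supClosed' := by
    intro X hX Y hY
    show (X ∪ Y).Finite ∨ (X ∪ Y)ᶜ.Finite
    rcases hX with hX | hX
    · rcases hY with hY | hY
      · exact Or.inl (hX.union hY)
      · exact Or.inr (hY.subset fun x hx h => hx (Or.inr h))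
    · exact Or.inr (hX.subset fun x hx h => hx (Or.inl h))
  infClosed' := by
    intro X hX Y hY
    show (X ∩ Y).Finite ∨ (X ∩ Y)ᶜ.Finite
    rcases hX with hX | hX
    · exact Or.inl (hX.subset fun x hx => hx.1)
    · rcases hY with hY | hY
      · exact Or.inl (hY.subset fun x hx => hx.2)
      · right
        rw [Set.compl_inter]
        exact hX.union hY
  compl_mem' := by
    intro X hX
    show Xᶜ.Finite ∨ Xᶜᶜ.Finite
    rw [compl_compl]
    exact Or.symm hX
  bot_mem' := Or.inl Set.finite_empty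

lemma mem_FC {X : Set ℕ} : X ∈ FC ↔ X.Finite ∨ Xᶜ.Finite := Iff.rfl

/-- the presentation -/
noncomputable def eFC : ℕ ≃ FC :=
  Equiv.ofBijective (fun n => (⟨E n, E_fin_or n⟩ : FC)) ⟨fun m n h => E_inj (congrArg Subtype.val h),
    fun X => by
      rcases X.2 with h | h
      · obtain ⟨n, hn⟩ := exists_finite h
        exact ⟨n, Subtype.ext hn⟩
      · obtain ⟨n, hn⟩ := exists_cofinite h
        exact ⟨n, Subtype.ext hn⟩⟩

lemma eFC_val (n : ℕ) : ((eFC n : FC) : Set ℕ) = E n := rfl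

lemma eFC_symm {X : FC} {k : ℕ} (h : E k = (X : Set ℕ)) : eFC.symm X = k := by
  rw [Equiv.symm_apply_eq]
  exact Subtype.ext h.symm

theorem iff_primrec {α : Type} [Primcodable α] {p q : α → Prop} (hp : PrimrecPred p)
    (hq : PrimrecPred q) : PrimrecPred fun a => (p a ↔ q a) := by
  refine PrimrecPred.of_eq (PrimrecPred.or (PrimrecPred.and hp hq)
    (PrimrecPred.and hp.not hq.not)) fun a => ?_
  tauto

/-- binary operations -/
theorem comp2 (R : Prop → Prop → Prop)
    (hR : ∀ {α : Type} [Primcodable α] {p q : α → Prop}, PrimrecPred p → PrimrecPred q →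
      PrimrecPred fun a => R (p a) (q a))
    (op : FC → FC → FC) (hop : ∀ X Y : FC, ∀ x : ℕ, x ∈ (op X Y : Set ℕ) ↔
      R (x ∈ (X : Set ℕ)) (x ∈ (Y : Set ℕ))) :
    Computable₂ fun m n : ℕ => eFC.symm (op (eFC m) (eFC n)) := by
  classical
  obtain ⟨b, hb⟩ := exists_least
  have key : ∀ m n k : ℕ, (∀ x < m + n + k + b + 1, (x ∈ E k ↔ R (x ∈ E m) (x ∈ E n))) ↔
      E k = (op (eFC m) (eFC n) : Set ℕ) := by
    intro m n k
    rw [← test hb (fun p q r => (r ↔ R p q)), Set.ext_iff]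
    refine forall_congr' fun x => ?_
    rw [hop, eFC_val, eFC_val]
  have h1 : PrimrecRel fun (x : ℕ) (p : (ℕ × ℕ) × ℕ) =>
      (x ∈ E p.2 ↔ R (x ∈ E p.1.1) (x ∈ E p.1.2)) := by
    refine iff_primrec (E_primrec.comp Primrec.fst (Primrec.snd.comp Primrec.snd)) (hR ?_ ?_)
    · exact E_primrec.comp Primrec.fst (Primrec.fst.comp (Primrec.fst.comp Primrec.snd))
    · exact E_primrec.comp Primrec.fst (Primrec.snd.comp (Primrec.fst.comp Primrec.snd))
  have h2 : PrimrecPred fun p : (ℕ × ℕ) × ℕ => ∀ x < p.1.1 + p.1.2 + p.2 + b + 1,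
      (x ∈ E p.2 ↔ R (x ∈ E p.1.1) (x ∈ E p.1.2)) := by
    have h3 := (PrimrecRel.forall_mem_list h1).comp (Primrec.list_range.comp
      (Primrec.succ.comp (Primrec.nat_add.comp (Primrec.nat_add.comp (Primrec.nat_add.comp
        (Primrec.fst.comp Primrec.fst) (Primrec.snd.comp Primrec.fst)) Primrec.snd)
        (Primrec.const b)))) (Primrec.id (α := (ℕ × ℕ) × ℕ))
    refine PrimrecPred.of_eq h3 fun p => ?_
    simp
  have hex : ∀ p : ℕ × ℕ, ∃ k, ∀ x < p.1 + p.2 + k + b + 1,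
      (x ∈ E k ↔ R (x ∈ E p.1) (x ∈ E p.2)) := by
    intro p
    obtain ⟨k, hk⟩ := eFC.surjective (op (eFC p.1) (eFC p.2))
    exact ⟨k, (key p.1 p.2 k).mpr (congrArg Subtype.val hk)⟩
  have h4 := Computable.find (P := fun (p : ℕ × ℕ) k => ∀ x < p.1 + p.2 + k + b + 1,
      (x ∈ E k ↔ R (x ∈ E p.1) (x ∈ E p.2))) h2.computablePred hex
  refine Computable.of_eq h4 fun p => ?_
  exact (eFC_symm ((key p.1 p.2 _).mp (Nat.find_spec (hex p)))).symm

theorem comp_sup : Computable₂ fun m n : ℕ => eFC.symm (eFC m ⊔ eFC n) :=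
  comp2 Or (fun hp hq => PrimrecPred.or hp hq) (fun X Y => X ⊔ Y) fun _ _ _ => Iff.rfl

theorem comp_inf : Computable₂ fun m n : ℕ => eFC.symm (eFC m ⊓ eFC n) :=
  comp2 And (fun hp hq => PrimrecPred.and hp hq) (fun X Y => X ⊓ Y) fun _ _ _ => Iff.rfl

theorem comp_compl : Computable fun n : ℕ => eFC.symm (eFC n)ᶜ := by
  have h := comp2 (fun p _ => ¬ p) (fun hp _ => hp.not) (fun X _ => Xᶜ) fun _ _ _ => Iff.rfl
  exact h.comp Computable.id (Computable.const 0)

end Pool.Agent.Q317.IA
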